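import Mathlib

/-!
# Mutually orthogonal latin triangles: definitions
-/

set_option autoImplicit false

namespace Pool.Agent.H928.LT

/-- The cells of the triangle of order `n`: the triples of positive integers with sum `n + 2`. -/
def Cell (n : ℕ) : Type := {p : Fin 3 → ℕ // (∀ x, 1 ≤ p x) ∧ p 0 + p 1 + p 2 = n + 2}

/-- The line with the number `i` (`1 ≤ i ≤ (n + 1) / 2`) for the coordinate `x`: the union of the rows with the
`x`-coordinates `i` and `n + 1 - i` if `n` is even, and of the rows with the `x`-coordinates `i` and `n + 2 - i` if `n` is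
odd (no cell has a coordinate equal to `n + 1`, so for odd `n` the line with the number `1` is a row). -/
def Line (n : ℕ) (x : Fin 3) (i : ℕ) : Set (Cell n) :=
  {p | p.1 x = i ∨ p.1 x + i = if Even n then n + 1 else n + 2}

/-- `T` is a latin triangle of order `n`: a filling of the cells with `2 ⌊n / 2⌋ + 1` symbols such that every line
contains every symbol exactly once. -/
def IsLT (n : ℕ) (T : Cell n → Fin (2 * (n / 2) + 1)) : Prop :=
  ∀ (x : Fin 3) (i : ℕ), 1 ≤ i → i ≤ (n + 1) / 2 → ∀ s, ∃! p, p ∈ Line n x i ∧ T p = s

/-- `T` and `T'` are orthogonal: the pairs of symbols are pairwise distinct. -/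
def Orth {n : ℕ} (T T' : Cell n → Fin (2 * (n / 2) + 1)) : Prop :=
  Function.Injective fun p => (T p, T' p)

/-- The numbers `k` such that there are `k` mutually orthogonal latin triangles of order `n`. -/
def Molt (n : ℕ) : Set ℕ :=
  {k | ∃ F : Fin k → Cell n → Fin (2 * (n / 2) + 1), (∀ t, IsLT n (F t)) ∧
    ∀ t t', t ≠ t' → Orth (F t) (F t')}

end Pool.Agent.H928.LT
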