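import Pool.Agent.H928.LT.Upper

/-!
# Three mutually orthogonal latin triangles of order seven
-/

set_option autoImplicit false

namespace Pool.Agent.H928.LT

/-- the first two coordinates of the cells of the triangle of order seven -/
def cells : List (ℕ × ℕ) :=
  ((List.range 8).flatMap fun a => (List.range 8).map fun b => (a, b)).filter
    fun u => decide (1 ≤ u.1 ∧ 1 ≤ u.2 ∧ u.1 + u.2 ≤ 8)

/-- the coordinates -/
def co (u : ℕ × ℕ) : Fin 3 → ℕ := ![u.1, u.2, 9 - (u.1 + u.2)]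

/-- the three triangles, row by row -/
def tabs : List (List (List ℕ)) :=
  [[[0, 2, 1, 3, 4, 5, 6], [5, 4, 0, 6, 1, 2], [6, 5, 3, 2, 0], [2, 0, 6, 5], [1, 3, 4], [4, 1],
      [3]],
    [[0, 1, 3, 4, 2, 5, 6], [3, 0, 6, 5, 1, 4], [1, 2, 0, 6, 3], [5, 4, 2, 0], [6, 3, 1], [4, 5],
      [2]],
    [[0, 1, 3, 2, 4, 5, 6], [2, 5, 1, 0, 6, 4], [4, 0, 6, 3, 5], [6, 3, 2, 1], [5, 4, 0], [1, 2],
      [3]]]

/-- the entries -/
def tab (t : Fin 3) (u : ℕ × ℕ) : Fin 7 :=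
  Fin.ofNat 7 ((((tabs.getD t.1 []).getD (u.1 - 1) []).getD (u.2 - 1) 0))

theorem tab_ex : ∀ t : Fin 3, ∀ x : Fin 3, ∀ i ∈ [1, 2, 3, 4], ∀ s : Fin 7, ∃ u ∈ cells,
    (co u x = i ∨ co u x + i = 9) ∧ tab t u = s := by
  decide +kernel

theorem tab_un : ∀ t : Fin 3, ∀ x : Fin 3, ∀ i ∈ [1, 2, 3, 4], ∀ u ∈ cells,
    (co u x = i ∨ co u x + i = 9) → ∀ v ∈ cells, (co v x = i ∨ co v x + i = 9) →
    tab t u = tab t v → u = v := by
  decide +kernel

theorem tab_or : ∀ t t' : Fin 3, t ≠ t' → ∀ u ∈ cells, ∀ v ∈ cells,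
    tab t u = tab t v → tab t' u = tab t' v → u = v := by
  decide +kernel

theorem mem_cells (p : Cell 7) : (p.1 0, p.1 1) ∈ cells := by
  have h := p.2.2
  have h0 := p.2.1 0
  have h1 := p.2.1 1
  have h2 := p.2.1 2
  unfold cells
  rw [List.mem_filter]
  refine ⟨?_, ?_⟩
  · rw [List.mem_flatMap]
    refine ⟨p.1 0, List.mem_range.2 (by omega), ?_⟩
    rw [List.mem_map]
    exact ⟨p.1 1, List.mem_range.2 (by omega), rfl⟩
  · rw [decide_eq_true_iff]
    show 1 ≤ p.1 0 ∧ 1 ≤ p.1 1 ∧ p.1 0 + p.1 1 ≤ 8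
    omega

theorem co_cell (p : Cell 7) (x : Fin 3) : co (p.1 0, p.1 1) x = p.1 x := by
  have h := p.2.2
  fin_cases x
  · rfl
  · rfl
  · show 9 - (p.1 0 + p.1 1) = p.1 2
    omega

theorem cell_of {u : ℕ × ℕ} (hu : u ∈ cells) : ∃ p : Cell 7, (p.1 0, p.1 1) = u := by
  unfold cells at hu
  rw [List.mem_filter] at hu
  have h := of_decide_eq_true hu.2
  refine ⟨⟨co u, ?_, ?_⟩, rfl⟩
  · intro x
    fin_cases x
    · exact h.1
    · exact h.2.1
    · show 1 ≤ 9 - (u.1 + u.2)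
      omega
  · show u.1 + u.2 + (9 - (u.1 + u.2)) = 7 + 2
    omega

theorem line_iff (x : Fin 3) (i : ℕ) (p : Cell 7) : p ∈ Line 7 x i ↔ (p.1 x = i ∨ p.1 x + i = 9) := by
  unfold Line
  rw [if_neg (by decide)]
  rfl

theorem three_mem : 3 ∈ Molt 7 := by
  refine ⟨fun t p => tab t (p.1 0, p.1 1), ?_, ?_⟩
  · intro t x i hi hi' s
    have hi4 : i ∈ [1, 2, 3, 4] := by
      have : i ≤ 4 := hi'
      interval_cases i <;> simp
    obtain ⟨u, hu, hl, hs⟩ := tab_ex t x i hi4 s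
    obtain ⟨p, rfl⟩ := cell_of hu
    rw [co_cell] at hl
    refine ⟨p, ⟨(line_iff x i p).2 hl, hs⟩, ?_⟩
    rintro q ⟨hq, hqs⟩
    rw [line_iff] at hq
    have h := tab_un t x i hi4 _ (mem_cells q) (by rw [co_cell]; exact hq) _ (mem_cells p)
      (by rw [co_cell]; exact hl) (hqs.trans hs.symm)
    exact cell_ext (congrArg Prod.fst h) (congrArg Prod.snd h)
  · intro t t' htt p q hpq
    have h := tab_or t t' htt _ (mem_cells p) _ (mem_cells q) (congrArg Prod.fst hpq)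
      (congrArg Prod.snd hpq)
    exact cell_ext (congrArg Prod.fst h) (congrArg Prod.snd h)

theorem seven : IsGreatest (Molt 7) 3 :=
  ⟨three_mem, fun _ hk => odd_bound (by decide) (le_refl 7) hk⟩

end Pool.Agent.H928.LT
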