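import Pool.Agent.H928.LT.Defs

/-!
# Mutually orthogonal latin triangles: upper bounds
-/

set_option autoImplicit false

namespace Pool.Agent.H928.LT

theorem cell_ext {n : ℕ} {p q : Cell n} (h0 : p.1 0 = q.1 0) (h1 : p.1 1 = q.1 1) : p = q := by
  apply Subtype.ext
  funext x
  have hp := p.2.2
  have hq := q.2.2
  fin_cases x
  · exact h0
  · exact h1
  · show p.1 2 = q.1 2
    omega

/-- The argument: the cells of a line which have the symbol of `p0` in the different triangles are different, and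
not on the lines of `p0`. -/
theorem bound {n k : ℕ} (F : Fin k → Cell n → Fin (2 * (n / 2) + 1)) (hF : ∀ t, IsLT n (F t))
    (hO : ∀ t t', t ≠ t' → Orth (F t) (F t')) (p0 : Cell n) (i j l : ℕ) (hi : 1 ≤ i)
    (hi' : i ≤ (n + 1) / 2) (hj : 1 ≤ j) (hj' : j ≤ (n + 1) / 2) (hl : 1 ≤ l)
    (hl' : l ≤ (n + 1) / 2) (h0 : p0 ∉ Line n 0 i) (h1 : p0 ∈ Line n 1 j) (h2 : p0 ∈ Line n 2 l)
    (S : Finset ℕ) (φ : Cell n → ℕ)
    (hφ : ∀ q ∈ Line n 0 i, q ∉ Line n 1 j → q ∉ Line n 2 l → φ q ∈ S)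
    (hinj : ∀ q ∈ Line n 0 i, q ∉ Line n 1 j → q ∉ Line n 2 l → ∀ q' ∈ Line n 0 i,
      q' ∉ Line n 1 j → q' ∉ Line n 2 l → φ q = φ q' → q = q') : k ≤ S.card := by
  choose q hq _ using fun t => hF t 0 i hi hi' (F t p0)
  have hne : ∀ t, q t ≠ p0 := fun t h => h0 (h ▸ (hq t).1)
  have hq1 : ∀ t, q t ∉ Line n 1 j := by
    intro t h
    exact hne t ((hF t 1 j hj hj' (F t p0)).unique ⟨h, (hq t).2⟩ ⟨h1, rfl⟩)
  have hq2 : ∀ t, q t ∉ Line n 2 l := by
    intro t h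
    exact hne t ((hF t 2 l hl hl' (F t p0)).unique ⟨h, (hq t).2⟩ ⟨h2, rfl⟩)
  have hqi : Function.Injective q := by
    intro t t' htt
    by_contra hne'
    apply hne t
    apply hO t t' hne'
    show (F t (q t), F t' (q t)) = (F t p0, F t' p0)
    rw [(hq t).2, htt, (hq t').2]
  have h3 : (Finset.univ : Finset (Fin k)).card ≤ S.card := by
    apply Finset.card_le_card_of_injOn (fun t : Fin k => φ (q t))
    · intro t _
      exact hφ _ (hq t).1 (hq1 t) (hq2 t)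
    · intro t _ t' _ h
      exact hqi (hinj _ (hq t).1 (hq1 t) (hq2 t) _ (hq t').1 (hq1 t') (hq2 t') h)
  rwa [Finset.card_univ, Fintype.card_fin] at h3

theorem odd_bound {n k : ℕ} (hn : Odd n) (h7 : 7 ≤ n) (hk : k ∈ Molt n) : k ≤ n - 4 := by
  obtain ⟨F, hF, hO⟩ := hk
  have he : ¬ Even n := Nat.not_even_iff_odd.2 hn
  have hc : ∀ (x : Fin 3) (i : ℕ) (p : Cell n), p ∈ Line n x i ↔ (p.1 x = i ∨ p.1 x + i = n + 2) := by
    intro x i p
    unfold Line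
    rw [if_neg he]
    rfl
  have hp : (∀ x, 1 ≤ (![1, 1, n] : Fin 3 → ℕ) x) ∧ (![1, 1, n] : Fin 3 → ℕ) 0 +
      (![1, 1, n] : Fin 3 → ℕ) 1 + (![1, 1, n] : Fin 3 → ℕ) 2 = n + 2 := by
    refine ⟨fun x => ?_, ?_⟩
    · fin_cases x
      · exact le_refl 1
      · exact le_refl 1
      · show 1 ≤ n
        omega
    · show 1 + 1 + n = n + 2
      omega
  let p0 : Cell n := ⟨![1, 1, n], hp⟩
  have e0 : p0.1 0 = 1 := rfl
  have e1 : p0.1 1 = 1 := rfl
  have e2 : p0.1 2 = n := rfl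
  have hS : (Finset.Icc 2 (n - 3)).card = n - 4 := by
    rw [Nat.card_Icc]
    omega
  rw [← hS]
  refine bound F hF hO p0 4 1 2 (by omega) (by omega) (by omega) (by omega) (by omega) (by omega)
    ?_ ?_ ?_ (Finset.Icc 2 (n - 3)) (fun q => if q.1 0 = 4 then q.1 1 else n - 4) ?_ ?_
  · rw [hc, e0]
    omega
  · rw [hc, e1]
    omega
  · rw [hc, e2]
    omega
  · intro q hq0 hq1 hq2
    rw [hc] at hq0 hq1 hq2
    have hq := q.2.2
    have g0 := q.2.1 0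
    have g1 := q.2.1 1
    have g2 := q.2.1 2
    rw [Finset.mem_Icc]
    show 2 ≤ (if q.1 0 = 4 then q.1 1 else n - 4) ∧ (if q.1 0 = 4 then q.1 1 else n - 4) ≤ n - 3
    split_ifs <;> omega
  · intro q hq0 hq1 hq2 q' hq0' hq1' hq2' h
    rw [hc] at hq0 hq1 hq2 hq0' hq1' hq2'
    have hq := q.2.2
    have g0 := q.2.1 0
    have g1 := q.2.1 1
    have g2 := q.2.1 2
    have hq' := q'.2.2
    have g0' := q'.2.1 0
    have g1' := q'.2.1 1
    have g2' := q'.2.1 2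
    have h' : (if q.1 0 = 4 then q.1 1 else n - 4) = (if q'.1 0 = 4 then q'.1 1 else n - 4) := h
    have h5 : q.1 0 = q'.1 0 ∧ q.1 1 = q'.1 1 := by
      split_ifs at h' <;> omega
    exact cell_ext h5.1 h5.2

theorem even_bound {n k : ℕ} (hn : Even n) (h6 : 6 ≤ n) (hk : k ∈ Molt n) : k ≤ n - 5 := by
  obtain ⟨F, hF, hO⟩ := hk
  have hc : ∀ (x : Fin 3) (i : ℕ) (p : Cell n), p ∈ Line n x i ↔ (p.1 x = i ∨ p.1 x + i = n + 1) := by
    intro x i p
    unfold Line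
    rw [if_pos hn]
    rfl
  have hp : (∀ x, 1 ≤ (![1, 2, n - 1] : Fin 3 → ℕ) x) ∧ (![1, 2, n - 1] : Fin 3 → ℕ) 0 +
      (![1, 2, n - 1] : Fin 3 → ℕ) 1 + (![1, 2, n - 1] : Fin 3 → ℕ) 2 = n + 2 := by
    refine ⟨fun x => ?_, ?_⟩
    · fin_cases x
      · exact le_refl 1
      · show 1 ≤ 2
        omega
      · show 1 ≤ n - 1
        omega
    · show 1 + 2 + (n - 1) = n + 2
      omega
  let p0 : Cell n := ⟨![1, 2, n - 1], hp⟩
  have e0 : p0.1 0 = 1 := rfl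
  have e1 : p0.1 1 = 2 := rfl
  have e2 : p0.1 2 = n - 1 := rfl
  have hS : (Finset.Icc 3 (n - 3)).card = n - 5 := by
    rw [Nat.card_Icc]
    omega
  rw [← hS]
  refine bound F hF hO p0 2 2 2 (by omega) (by omega) (by omega) (by omega) (by omega) (by omega)
    ?_ ?_ ?_ (Finset.Icc 3 (n - 3)) (fun q => q.1 1) ?_ ?_
  · rw [hc, e0]
    omega
  · rw [hc, e1]
    omega
  · rw [hc, e2]
    omega
  · intro q hq0 hq1 hq2
    rw [hc] at hq0 hq1 hq2
    have hq := q.2.2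
    have g0 := q.2.1 0
    have g1 := q.2.1 1
    have g2 := q.2.1 2
    rw [Finset.mem_Icc]
    show 3 ≤ q.1 1 ∧ q.1 1 ≤ n - 3
    omega
  · intro q hq0 hq1 hq2 q' hq0' hq1' hq2' h
    rw [hc] at hq0 hq1 hq2 hq0' hq1' hq2'
    have hq := q.2.2
    have g0 := q.2.1 0
    have g1 := q.2.1 1
    have g2 := q.2.1 2
    have hq' := q'.2.2
    have g0' := q'.2.1 0
    have g1' := q'.2.1 1
    have g2' := q'.2.1 2
    have h' : q.1 1 = q'.1 1 := h
    exact cell_ext (by omega) h'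

end Pool.Agent.H928.LT
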